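import Pool.Agent.Helper80.AD.GoalsB

set_option autoImplicit false

noncomputable section

namespace Pool.Agent.Helper79.AD

open Pool.Agent.Helper80.AD

/-- one-sided limit -/
theorem lim_one (d c : ℝ) (hd : 2 ≤ d) (hc : 0 ≤ c) (K : ℤ → ℝ) (hK0 : ∀ n, 0 ≤ K n)
    (h1 : ∀ n, K (n + 1) ≤ d * K n + c) :
    ∃ θ : ℝ, 0 ≤ θ ∧ (∀ n : ℤ, d ^ n * θ ≤ K n + c) ∧
      ∀ (n : ℤ) (b : ℝ), (∀ j : ℕ, d ^ j * b ≤ K (n + j)) → b ≤ d ^ n * θ := by
  have hd0 : (0:ℝ) < d := by linarith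
  have hd1 : (0:ℝ) < d - 1 := by linarith
  have hdz : ∀ n : ℤ, (0:ℝ) < d ^ n := fun n => zpow_pos hd0 n
  obtain ⟨c1, hc1⟩ : ∃ c1 : ℝ, c1 = c / (d - 1) := ⟨_, rfl⟩
  have hc1' : c1 * (d - 1) = c := by rw [hc1]; field_simp
  have hc10 : 0 ≤ c1 := by rw [hc1]; positivity
  have hc1c : c1 ≤ c := by nlinarith
  have hanti1 : ∀ n : ℤ, (K (n + 1) + c1) / d ^ (n + 1) ≤ (K n + c1) / d ^ n := by
    intro n
    rw [div_le_div_iff₀ (hdz _) (hdz _), zpow_add_one₀ hd0.ne']
    have h2 := h1 n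
    have h3 : K (n + 1) + c1 ≤ d * (K n + c1) := by nlinarith
    calc (K (n + 1) + c1) * d ^ n ≤ (d * (K n + c1)) * d ^ n :=
          mul_le_mul_of_nonneg_right h3 (hdz n).le
      _ = (K n + c1) * (d ^ n * d) := by ring
  have hanti : Antitone fun n : ℤ => (K n + c1) / d ^ n := antitone_int_of_succ_le hanti1
  have hnn : ∀ n : ℤ, 0 ≤ (K n + c1) / d ^ n := fun n =>
    div_nonneg (add_nonneg (hK0 n) hc10) (hdz n).le
  have hbdd : BddBelow (Set.range fun n : ℤ => (K n + c1) / d ^ n) :=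
    ⟨0, by rintro _ ⟨n, rfl⟩; exact hnn n⟩
  refine ⟨⨅ n : ℤ, (K n + c1) / d ^ n, le_ciInf hnn, ?_, ?_⟩
  · intro n
    have h2 : (⨅ n : ℤ, (K n + c1) / d ^ n) ≤ (K n + c1) / d ^ n := ciInf_le hbdd n
    have h3 := mul_le_mul_of_nonneg_left h2 (hdz n).le
    rw [mul_div_cancel₀ _ (hdz n).ne'] at h3
    linarith
  · intro n b hb
    have h2 : b / d ^ n ≤ ⨅ n : ℤ, (K n + c1) / d ^ n := by
      apply le_ciInf
      intro m
      have key : ∀ j : ℕ, b / d ^ n ≤ (K (n + j) + c1) / d ^ (n + j) := by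
        intro j
        rw [div_le_div_iff₀ (hdz _) (hdz _), zpow_add₀ hd0.ne', zpow_natCast]
        have h4 := hb j
        have h5 : d ^ j * b ≤ K (n + j) + c1 := by linarith
        calc b * (d ^ n * d ^ j) = (d ^ j * b) * d ^ n := by ring
          _ ≤ (K (n + j) + c1) * d ^ n := mul_le_mul_of_nonneg_right h5 (hdz n).le
      rcases le_total n m with h | h
      · obtain ⟨j, hj⟩ := Int.eq_ofNat_of_zero_le (sub_nonneg.mpr h)
        have hm : m = n + j := by omega
        rw [hm]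
        exact key j
      · have h6 := key 0
        rw [Nat.cast_zero, add_zero] at h6
        exact h6.trans (hanti h)
    have h3 := mul_le_mul_of_nonneg_left h2 (hdz n).le
    rwa [mul_div_cancel₀ _ (hdz n).ne'] at h3

/-- forward growth -/
theorem grow (d e c : ℝ) (hd : 2 ≤ d) (he : 2 ≤ e) (hc : 0 ≤ c) (K : ℤ → ℝ)
    (h3 : ∀ n, K n ≤ max (K (n + 1) / d) (K (n - 1) / e) + c) (n : ℤ) (h2 : 2 * c < K n)
    (hf : K n ≤ K (n + 1) / d + c) : ∀ j : ℕ, d ^ j * (K n - 2 * c) ≤ K (n + j) := by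
  have hd0 : (0:ℝ) < d := by linarith
  have he0 : (0:ℝ) < e := by linarith
  have hd1 : (0:ℝ) < d - 1 := by linarith
  obtain ⟨c1, hc1⟩ : ∃ c1 : ℝ, c1 = c * d / (d - 1) := ⟨_, rfl⟩
  have hc1' : c1 * (d - 1) = c * d := by rw [hc1]; field_simp
  have hc10 : 0 ≤ c1 := by rw [hc1]; positivity
  have hc1c : c1 ≤ 2 * c := by
    have : c1 * (d - 1) ≤ (2 * c) * (d - 1) := by rw [hc1']; nlinarith
    exact le_of_mul_le_mul_right this hd1
  have step : ∀ j : ℕ, 2 * c < K (n + j) ∧ K (n + j) ≤ K (n + j + 1) / d + c ∧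
      d ^ j * (K n - c1) ≤ K (n + j) - c1 := by
    intro j
    induction j with
    | zero => simpa using ⟨h2, hf⟩
    | succ j ih =>
      obtain ⟨i1, i2, i3⟩ := ih
      have hcast : (n + ((j + 1 : ℕ) : ℤ)) = n + j + 1 := by push_cast; ring
      rw [hcast]
      have a1 : d * (K (n + j) - c) ≤ K (n + j + 1) := by
        have : K (n + j) - c ≤ K (n + j + 1) / d := by linarith
        rw [le_div_iff₀ hd0] at this
        linarith
      have a2 : 2 * (K (n + j) - c) ≤ K (n + j + 1) := by nlinarith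
      have a3 : 2 * c < K (n + j + 1) := by linarith
      refine ⟨a3, ?_, ?_⟩
      · rcases le_max_iff.mp (le_refl (max (K (n + j + 1 + 1) / d) (K (n + j + 1 - 1) / e))) with
          hm | hm
        · have := h3 (n + j + 1)
          linarith
        · exfalso
          have h4 := h3 (n + j + 1)
          have h5 : n + (j:ℤ) + 1 - 1 = n + j := by ring
          rw [h5] at h4 hm
          have h6 : K (n + j) / e ≤ K (n + j) / 2 := by
            apply div_le_div_of_nonneg_left (by linarith) (by norm_num) he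
          linarith
      · rw [pow_succ]
        nlinarith
  intro j
  obtain ⟨_, _, i3⟩ := step j
  have hdj : (0:ℝ) < d ^ j := pow_pos hd0 j
  nlinarith

theorem two_sided (d e c : ℝ) (hd : 2 ≤ d) (he : 2 ≤ e) (hc : 0 ≤ c) (K : ℤ → ℝ)
    (h3 : ∀ n, K n ≤ max (K (n + 1) / d) (K (n - 1) / e) + c)
    (θ η : ℝ) (hθ0 : 0 ≤ θ) (hη0 : 0 ≤ η)
    (hθ : ∀ (n : ℤ) (b : ℝ), (∀ j : ℕ, d ^ j * b ≤ K (n + j)) → b ≤ d ^ n * θ)
    (hη : ∀ (n : ℤ) (b : ℝ), (∀ j : ℕ, e ^ j * b ≤ K (-(n + j))) → b ≤ e ^ n * η) (n : ℤ) :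
    K n ≤ d ^ n * θ + e ^ (-n) * η + 2 * c := by
  have hd0 : (0:ℝ) < d := by linarith
  have he0 : (0:ℝ) < e := by linarith
  have p1 : 0 ≤ d ^ n * θ := mul_nonneg (zpow_pos hd0 n).le hθ0
  have p2 : 0 ≤ e ^ (-n) * η := mul_nonneg (zpow_pos he0 _).le hη0
  rcases le_or_gt (K n) (2 * c) with h | h
  · linarith
  · have h4 := h3 n
    rcases le_total (K (n - 1) / e) (K (n + 1) / d) with hm | hm
    · rw [max_eq_left hm] at h4
      have := hθ n _ (grow d e c hd he hc K h3 n h h4)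
      linarith
    · rw [max_eq_right hm] at h4
      have h5 : ∀ j : ℕ, e ^ j * (K n - 2 * c) ≤ K (-(-n + j)) := by
        have g := grow e d c he hd hc (fun m => K (-m)) (fun m => by
          have := h3 (-m)
          rw [max_comm]
          have e1 : -(m + 1) = -m - 1 := by ring
          have e2 : -(m - 1) = -m + 1 := by ring
          simp only [e1, e2]
          exact this) (-n) (by simpa using h) (by
            have e1 : -(-n + 1) = n - 1 := by ring
            simp only [neg_neg, e1]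
            exact h4)
        intro j
        have := g j
        simpa using this
      have := hη (-n) _ h5
      linarith

theorem seq : S_SEQ := by
  intro d e c H hd he hc hH0 h1 h2 h3
  have hd0 : (0:ℝ) < d := by linarith
  have he0 : (0:ℝ) < e := by linarith
  obtain ⟨θ, hθ0, hθ1, hθ2⟩ := lim_one d c hd hc H hH0 h1
  obtain ⟨η, hη0, hη1, hη2⟩ := lim_one e c he hc (fun m => H (-m)) (fun m => hH0 _) (fun m => by
    have := h2 (-m)
    have e1 : -(m + 1) = -m - 1 := by ring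
    simp only [e1]
    exact this)
  have main := two_sided d e c hd he hc H h3 θ η hθ0 hη0 hθ2 hη2
  have t0 : θ ≤ H 0 + c := by simpa using hθ1 0
  have e0 : η ≤ H 0 + c := by simpa using hη1 0
  refine ⟨θ, η, hθ0, hη0, fun n => ?_⟩
  have hdn : (0:ℝ) < d ^ n := pow_pos hd0 n
  have hen : (0:ℝ) < e ^ n := pow_pos he0 n
  have a1 : d ^ n * θ ≤ H n + c := by simpa using hθ1 (n : ℤ)
  have a2 : e ^ n * η ≤ H (-n) + c := by simpa using hη1 (n : ℤ)
  have a3 : (1 / e) ^ n * η ≤ H n + c := by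
    have := hη1 (-(n : ℤ))
    simpa [zpow_neg] using this
  have a4 : H n ≤ d ^ n * θ + (1 / e) ^ n * η + 2 * c := by
    have := main (n : ℤ)
    simpa [zpow_neg] using this
  have a5 : H (-n) ≤ (1 / d) ^ n * θ + e ^ n * η + 2 * c := by
    have := main (-(n : ℤ))
    simpa [zpow_neg] using this
  have b1 : (1 / e) ^ n ≤ 1 := pow_le_one₀ (by positivity) (by
    rw [div_le_one he0]; linarith)
  have b2 : (1 / d) ^ n ≤ 1 := pow_le_one₀ (by positivity) (by
    rw [div_le_one hd0]; linarith)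
  have b3 : (1 / e) ^ n * η ≤ H 0 + c := by nlinarith
  have b4 : (1 / d) ^ n * θ ≤ H 0 + c := by nlinarith
  refine ⟨a1, a3, a4, ?_, ?_, ?_, ?_⟩
  · rw [le_div_iff₀ hdn]; linarith
  · rw [div_le_iff₀ hdn, add_mul, div_mul_cancel₀ _ hdn.ne']
    linarith
  · rw [le_div_iff₀ hen]; linarith
  · rw [div_le_iff₀ hen, add_mul, div_mul_cancel₀ _ hen.ne']
    linarith

end Pool.Agent.Helper79.AD
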